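import Pool.Agent.H42.STN.Len

/-!
# Board STO, BG4 with 11 in place of 4: the length of the cycle is less than 2500000
-/

set_option autoImplicit false

namespace Pool.STN

/-- BG4 with `11` -/
def BG11Stmt : Prop :=
  ∀ k U m0 : ℕ, U ≤ k → 2500000 ≤ k → 2 ≤ m0 → (k : ℝ) ≤ 972 * Real.log m0 →
    |((k + U : ℕ) : ℝ) * Real.log 2 - (k : ℝ) * Real.log 3| ≤ 11 / ((m0 : ℝ) - 1) → False

theorem bg11_e15 : (11 / 10 * 2965950 : ℝ) ≤ Real.exp 15 := by
  have h1 : Real.exp 15 = Real.exp 1 ^ 15 := by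
    rw [← Real.exp_nat_mul]
    norm_num
  rw [h1]
  have h2 : (2.7182818 : ℝ) ≤ Real.exp 1 := by
    have := Real.exp_one_gt_d9
    linarith
  refine le_trans ?_ (pow_le_pow_left₀ (by norm_num) h2 15)
  norm_num

theorem bg11_small (n : ℕ) (hn : 166 ≤ n) :
    378 * (15000 * ((n : ℝ) + 1)) * (343 / 400) ^ n ≤ 1 / 2 := by
  induction n, hn using Nat.le_induction with
  | base => norm_num
  | succ n hn ih =>
    refine le_trans ?_ ih
    have hnr : (166 : ℝ) ≤ n := by exact_mod_cast hn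
    have hp : (0 : ℝ) < (343 / 400 : ℝ) ^ n := by positivity
    rw [pow_succ]
    push_cast
    have h1 : ((n : ℝ) + 1 + 1) * (343 / 400) ≤ (n : ℝ) + 1 := by linarith
    have h2 : 378 * (15000 * ((n : ℝ) + 1 + 1)) * ((343 / 400) ^ n * (343 / 400)) =
        378 * 15000 * (343 / 400) ^ n * (((n : ℝ) + 1 + 1) * (343 / 400)) := by ring
    have h3 : 378 * (15000 * ((n : ℝ) + 1)) * (343 / 400) ^ n =
        378 * 15000 * (343 / 400) ^ n * ((n : ℝ) + 1) := by ring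
    rw [h2, h3]
    exact mul_le_mul_of_nonneg_left h1 (by positivity)

theorem bg11_thm (hD : DIOStmt) : BG11Stmt := by
  intro k U m0 hU hk hm0 hlog hE
  set n : ℕ := k / 15000 with hn
  have hn166 : 166 ≤ n := by omega
  have hkn : 15000 * n ≤ k := by omega
  have hkn2 : k ≤ 15000 * (n + 1) := by omega
  have hknr : (15000 : ℝ) * n ≤ k := by exact_mod_cast hkn
  have hknr2 : (k : ℝ) ≤ 15000 * ((n : ℝ) + 1) := by exact_mod_cast hkn2
  have hk0 : (0 : ℝ) < k := by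
    have : 0 < k := by omega
    exact_mod_cast this
  have hm0r : (2 : ℝ) ≤ m0 := by exact_mod_cast hm0
  have hUk : (U : ℝ) ≤ k := by exact_mod_cast hU
  have hU0 : (0 : ℝ) ≤ U := Nat.cast_nonneg _
  have hne : ((k : ℤ) - 2 * U) ≠ 0 ∨ ((k : ℤ) - U) ≠ 0 := by omega
  have h3 := hD ((k : ℤ) - 2 * U) ((k : ℤ) - U) n hne (by omega)
  have hL : (((k : ℤ) - 2 * U : ℤ) : ℝ) * Real.log (4 / 3) +
      (((k : ℤ) - U : ℤ) : ℝ) * Real.log (9 / 8) =
      -(((k + U : ℕ) : ℝ) * Real.log 2 - (k : ℝ) * Real.log 3) := by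
    have e1 : Real.log (4 / 3) = 2 * Real.log 2 - Real.log 3 := by
      rw [Real.log_div (by norm_num) (by norm_num), show (4 : ℝ) = 2 ^ 2 by norm_num,
        Real.log_pow]
      norm_num
    have e2 : Real.log (9 / 8) = 2 * Real.log 3 - 3 * Real.log 2 := by
      rw [Real.log_div (by norm_num) (by norm_num), show (9 : ℝ) = 3 ^ 2 by norm_num,
        show (8 : ℝ) = 2 ^ 3 by norm_num, Real.log_pow, Real.log_pow]
      norm_num
    rw [e1, e2]
    push_cast
    ring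
  rw [hL, abs_neg] at h3
  have hu : |(((k : ℤ) - 2 * U : ℤ) : ℝ)| ≤ k := by
    push_cast
    rw [abs_le]
    constructor <;> linarith
  have hv : |(((k : ℤ) - U : ℤ) : ℝ)| ≤ k := by
    push_cast
    rw [abs_le]
    constructor <;> linarith
  have hp0 : (0 : ℝ) ≤ (343 / 400 : ℝ) ^ n := by positivity
  have h5 : 14 * (18 * |(((k : ℤ) - 2 * U : ℤ) : ℝ)| + 9 * |(((k : ℤ) - U : ℤ) : ℝ)|) *
      (343 / 400) ^ n ≤ 1 / 2 := by
    refine le_trans ?_ (bg11_small n hn166)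
    refine mul_le_mul_of_nonneg_right ?_ hp0
    linarith
  have hmp : (0 : ℝ) < (m0 : ℝ) - 1 := by linarith
  have h6 : (1 : ℝ) / 2 ≤ 601 * 2965950 ^ n * (11 / ((m0 : ℝ) - 1)) := by
    have h7 : 601 * 2965950 ^ n * |((k + U : ℕ) : ℝ) * Real.log 2 - (k : ℝ) * Real.log 3| ≤
        601 * 2965950 ^ n * (11 / ((m0 : ℝ) - 1)) :=
      mul_le_mul_of_nonneg_left hE (by positivity)
    linarith
  have h7 : (m0 : ℝ) - 1 ≤ 13222 * 2965950 ^ n := by
    have h8 : 601 * 2965950 ^ n * (11 / ((m0 : ℝ) - 1)) =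
        6611 * 2965950 ^ n / ((m0 : ℝ) - 1) := by
      ring
    rw [h8, le_div_iff₀ hmp] at h6
    linarith
  have h8 : (15 : ℝ) * n ≤ Real.log m0 := by
    have hn0 : (0 : ℝ) ≤ n := Nat.cast_nonneg _
    linarith
  have h9 : Real.exp (15 * n) ≤ m0 := by
    rw [← Real.le_log_iff_exp_le (by linarith)]
    exact h8
  have h10 : (11 / 10 * 2965950 : ℝ) ^ n ≤ Real.exp (15 * n) := by
    have e : Real.exp (15 * n) = Real.exp 15 ^ n := by
      rw [← Real.exp_nat_mul]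
      congr 1
      ring
    rw [e]
    exact pow_le_pow_left₀ (by norm_num) bg11_e15 n
  rw [mul_pow] at h10
  have h11 : (13224 : ℝ) ≤ (11 / 10) ^ n :=
    le_trans (by norm_num) (pow_le_pow_right₀ (by norm_num : (1 : ℝ) ≤ 11 / 10) hn166)
  have h12 : (1 : ℝ) ≤ 2965950 ^ n := one_le_pow₀ (by norm_num)
  have h13 : (13224 : ℝ) * 2965950 ^ n ≤ (11 / 10) ^ n * 2965950 ^ n :=
    mul_le_mul_of_nonneg_right h11 (by positivity)
  linarith

end Pool.STN
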