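import Pool.Agent.H42.STN.CH11
import Pool.Agent.H78.STN.Stmts3

/-!
# Cycles of Collatz's permutation with at most eleven local minima
-/

set_option autoImplicit false

open Finset Pool.Agent.H40.COL

namespace Pool.STN

/-- the union of the known cycles -/
def fi11_S : Finset ℕ :=
  {1, 2, 3, 4, 5, 6, 7, 9, 44, 59, 79, 105, 70, 93, 62, 83, 111, 74, 99, 66}

theorem fi11_closed : ∀ x ∈ fi11_S, F x ∈ fi11_S := by decide

theorem fi11_orbit (x : ℕ) (hx : x ∈ fi11_S) (j : ℕ) : F^[j] x ∈ fi11_S := by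
  induction j with
  | zero => exact hx
  | succ j ih =>
    rw [Function.iterate_succ_apply']
    exact fi11_closed _ ih

/-- the computation -/
def EM11Stmt : Prop :=
  ∀ m0 : ℕ, m0 ≤ 275001 → m0 % 2 = 0 → m0 % 3 ≠ 0 → 5 ≤ m0 → m0 ≠ 44 → (∀ j, m0 ≤ F^[j] m0) →
    esck m0

/-- the computation from the rows EJC, ENJ, SIK -/
theorem em11_of (hEJC : ∀ c, c < 14 → EJCStmt c) (hENJ : ENJStmt) (hSIK : SIKStmt) : EM11Stmt :=
  fun m0 h1 h2 h3 h4 h5 h6 => hSIK 120 m0 (by omega) h2 h3 h6 (hENJ hEJC m0 h1 h2 h3 h4 h5)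

/-- the theorem -/
def FI11Stmt : Prop :=
  ∀ f : ℕ → ℕ, (∀ n : ℕ, 1 ≤ n → f (3 * n) = 2 * n ∧ f (3 * n - 1) = 4 * n - 1 ∧
    f (3 * n - 2) = 4 * n - 3) → ∀ m k : ℕ, 1 ≤ m → 1 ≤ k → f^[k] m = m →
    ((Finset.range k).filter fun j => f^[j + 1] m < f^[j] m ∧ f^[j + 1] m < f^[j + 2] m).card ≤ 11 →
    m ∈ ({1, 2, 3, 4, 5, 6, 7, 9, 44, 59, 79, 105, 70, 93, 62, 83, 111, 74, 99, 66} : Finset ℕ)

theorem fi11_thm (hISF : ISFStmt) (hSUM : SUMStmt) (hCH : CH11Stmt) (hEM : EM11Stmt)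
    (hROT : ROTStmt) (hESK : ESKStmt) (hLEA : LEAStmt) (hTRI : TRIStmt) (hFEQ : FEQStmt) :
    FI11Stmt := by
  intro f hf m k hm hk hper hcard
  have hFe := fun i => (hFEQ f hf m hm i).1
  have hperF : F^[k] m = m := by rw [← hFe k]; exact hper
  have hlm : lm F m k ≤ 11 := by
    unfold lm
    simp only [hFe] at hcard
    exact hcard
  rcases Nat.lt_or_ge m 2 with h1 | h2
  · have : m = 1 := by omega
    rw [this]
    decide
  obtain ⟨i, hmin, hge, hev, hn3⟩ := hLEA m k h2 hk hperF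
  obtain ⟨hall, hperi, -, -, -, -⟩ := hTRI m k h2 hk hperF
  obtain ⟨hper0, hlm0⟩ := hROT F m k i hperF
  have hmin0 : ∀ j, F^[i] m ≤ F^[j] (F^[i] m) := by
    intro j
    rw [← Function.iterate_add_apply]
    exact hmin _
  have hall0 : ∀ j, 2 ≤ F^[j] (F^[i] m) := fun j => hge.trans (hmin0 j)
  set m0 := F^[i] m with hm0
  have hlm4 : lm F m0 k ≤ 11 := by rw [hlm0]; exact hlm
  obtain ⟨U, hU, hsum⟩ := hSUM m0 k m0 hk hper0 hge hmin0
  have hm1 : (0 : ℝ) < (m0 : ℝ) - 1 := by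
    have : (2 : ℝ) ≤ (m0 : ℝ) := by exact_mod_cast hge
    linarith
  have hsum4 : |((k + U : ℕ) : ℝ) * Real.log 2 - (k : ℝ) * Real.log 3| ≤
      11 / ((m0 : ℝ) - 1) := by
    refine hsum.trans ?_
    have : (lm F m0 k : ℝ) ≤ 11 := by exact_mod_cast hlm4
    exact div_le_div_of_nonneg_right this hm1.le
  have hbig : m0 ≤ 275001 := by
    rcases Nat.lt_or_ge m0 100 with hs | hs
    · omega
    · exact hCH k U m0 hk hU hge (l11_len hISF k m0 hk hper0 hs hmin0 hlm4) hsum4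
  have hS : m0 ∈ fi11_S := by
    by_contra hcon
    have h5 : 5 ≤ m0 := by
      by_contra h5
      have : m0 = 2 ∨ m0 = 4 := by omega
      rcases this with h | h
      · exact hcon (by rw [h]; decide)
      · exact hcon (by rw [h]; decide)
    have h44 : m0 ≠ 44 := by
      intro h
      exact hcon (by rw [h]; decide)
    have hesc := hEM m0 hbig hev hn3 h5 h44 hmin0
    have h5l := hESK m0 k hge hk hper0 hev hn3 hesc
    omega
  have hback : F^[i * (k - 1)] m0 = m := by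
    rw [hm0, ← Function.iterate_add_apply]
    have e : i * (k - 1) + i = k * i := by
      obtain ⟨k', rfl⟩ : ∃ k', k = k' + 1 := ⟨k - 1, by omega⟩
      rw [Nat.add_sub_cancel]
      ring
    rw [e]
    exact (Function.IsPeriodicPt.mul_const (show Function.IsPeriodicPt F k m from hperF) i)
  have hfin := fi11_orbit m0 hS (i * (k - 1))
  rw [hback] at hfin
  exact hfin

end Pool.STN
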