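import Pool.Agent.H78.STN.Stmts2

/-!
# Cycles of Collatz's permutation with at most eleven local minima: the length

Backwards from the least element: from an even number `2 ^ v t` the reversed descents lead to `3 ^ v t`, so
`log y + v log (3 / 2)` does not change, and it is at most `(log 3 / log 2) log y`; the reversed ascents
decrease `y`.  So the logarithm of the greatest element and the number of descents are at most a constant
times the logarithm of the least element, with the factor `log 3 / log 2` for each local minimum.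
-/

set_option autoImplicit false

open Finset Pool.Agent.H40.COL

namespace Pool.STN

variable {f : ℕ → ℕ}

set_option exponentiation.threshold 600 in
theorem l11_lam : Real.log 3 ≤ 485 / 306 * Real.log 2 := by
  have h : ((3 : ℝ) ^ 306) ≤ 2 ^ 485 := by norm_num
  have h1 := Real.log_le_log (by positivity) h
  rw [Real.log_pow, Real.log_pow] at h1
  push_cast at h1
  linarith

theorem l11_lam' : 84 / 53 * Real.log 2 ≤ Real.log 3 := by
  have h : ((2 : ℝ) ^ 84) ≤ 3 ^ 53 := by norm_num
  have h1 := Real.log_le_log (by positivity) h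
  rw [Real.log_pow, Real.log_pow] at h1
  push_cast at h1
  linarith

theorem l11_rat : Real.log (3 / 2) ≤ 143 / 100 * Real.log (133 / 100) := by
  have h : ((3 / 2 : ℝ) ^ 100) ≤ (133 / 100) ^ 143 := by norm_num
  have h1 := Real.log_le_log (by positivity) h
  rw [Real.log_pow, Real.log_pow] at h1
  push_cast at h1
  linarith

theorem l11_32 : Real.log (3 / 2) = Real.log 3 - Real.log 2 :=
  Real.log_div (by norm_num) (by norm_num)

/-- the potential -/
noncomputable def l11_P (x : ℕ) : ℝ := Real.log x + (padicValNat 2 x : ℝ) * Real.log (3 / 2)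

theorem l11_PA {x : ℕ} (hx : 1 ≤ x) : (padicValNat 2 x : ℝ) * Real.log 3 ≤ l11_P x := by
  have h := val_le hx
  unfold l11_P
  rw [l11_32]
  linarith

theorem l11_PB {x : ℕ} (hx : 1 ≤ x) : l11_P x ≤ 485 / 306 * Real.log x := by
  have h := val_le hx
  have h1 := l11_lam
  have h3 : (0 : ℝ) ≤ padicValNat 2 x := Nat.cast_nonneg _
  have h4 : (padicValNat 2 x : ℝ) * Real.log 3 ≤ padicValNat 2 x * (485 / 306 * Real.log 2) :=
    mul_le_mul_of_nonneg_left h1 h3
  unfold l11_P
  rw [l11_32]
  nlinarith

theorem l11_odd {x : ℕ} (h : ¬ 2 ∣ x) : padicValNat 2 x = 0 :=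
  padicValNat.eq_zero_of_not_dvd h

theorem l11_P_odd {x : ℕ} (h : ¬ 2 ∣ x) : l11_P x = Real.log x := by
  unfold l11_P
  rw [l11_odd h]
  simp

/-- a reversed descent -/
theorem l11_dn {x y : ℕ} (hx : 1 ≤ x) (h : 3 * y = 2 * x) (h2 : 2 ∣ y) :
    padicValNat 2 y = padicValNat 2 x + 1 ∧ Real.log x = Real.log y + Real.log (3 / 2) := by
  obtain ⟨n, rfl⟩ := h2
  have hxn : x = 3 * n := by omega
  subst hxn
  have hn : n ≠ 0 := by omega
  have h3 : padicValNat 2 (3 * n) = padicValNat 2 n := by
    rw [padicValNat.mul (by norm_num) hn]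
    have : padicValNat 2 3 = 0 := padicValNat.eq_zero_of_not_dvd (by norm_num)
    rw [this, zero_add]
  have h4 : padicValNat 2 (2 * n) = 1 + padicValNat 2 n := by
    rw [padicValNat.mul (by norm_num) hn, padicValNat_self]
  have hn' : (n : ℝ) ≠ 0 := by exact_mod_cast hn
  refine ⟨by omega, ?_⟩
  push_cast
  rw [Real.log_mul (by norm_num) hn', Real.log_mul (by norm_num) hn', l11_32]
  ring

/-- a reversed ascent -/
theorem l11_up {x y : ℕ} (hx : 100 ≤ x) (h : 3 * y = 4 * x + 1 ∨ 3 * y + 1 = 4 * x) :
    Real.log (133 / 100) + Real.log x ≤ Real.log y := by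
  have hx0 : (100 : ℝ) ≤ x := by exact_mod_cast hx
  have h1 : 133 * x ≤ 100 * y := by omega
  have h2 : (133 : ℝ) * x ≤ 100 * y := by exact_mod_cast h1
  rw [← Real.log_mul (by norm_num) (by linarith)]
  exact Real.log_le_log (by linarith) (by linarith)

open Classical in
theorem l11_rev (hf : IsF f) (y : ℕ → ℕ) (k m0 : ℕ) (hm : 100 ≤ m0) (hy0 : y 0 = m0)
    (hmin : ∀ t, m0 ≤ y t) (hy : ∀ t, t < k → f (y (t + 1)) = y t) : ∀ t, t ≤ k →
    ∃ D U : ℕ, D + U = t ∧
      ((D : ℝ) + padicValNat 2 (y t)) * Real.log 3 ≤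
        (∑ j ∈ range (((range t).filter fun s => 2 ∣ y (s + 1) ∧ ¬ 3 ∣ y (s + 1)).card + 1),
          (485 / 306 : ℝ) ^ (j + 1)) * Real.log m0 ∧
      l11_P (y t) ≤
        (485 / 306 : ℝ) ^ (((range t).filter fun s => 2 ∣ y (s + 1) ∧ ¬ 3 ∣ y (s + 1)).card + 1) *
          Real.log m0 ∧
      (U : ℝ) * Real.log (133 / 100) + Real.log (y t) ≤
        Real.log m0 + (D : ℝ) * Real.log (3 / 2) := by
  intro t
  induction t with
  | zero =>
    intro _
    refine ⟨0, 0, rfl, ?_, ?_, ?_⟩
    · have h1 := l11_PA (x := m0) (by omega)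
      have h2 := l11_PB (x := m0) (by omega)
      rw [hy0]
      simp
      linarith
    · have h2 := l11_PB (x := m0) (by omega)
      rw [hy0]
      simpa using h2
    · rw [hy0]
      simp
  | succ t ih =>
    intro ht
    obtain ⟨D, U, hDU, h1, h2, h3⟩ := ih (by omega)
    have hx100 : 100 ≤ y (t + 1) := hm.trans (hmin _)
    have hst := hf.step (x := y (t + 1)) (by omega)
    rw [hy t (by omega)] at hst
    have hra : range (t + 1) = insert t (range t) := Finset.range_add_one
    rw [hra, Finset.filter_insert]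
    rcases hst with ⟨h4, h5, h6⟩ | ⟨h4, h5, h6⟩
    · -- a reversed descent
      obtain ⟨e1, e2⟩ := l11_dn (x := y (t + 1)) (by omega) h5 h6
      rw [if_neg (fun h => h.2 h4)]
      refine ⟨D + 1, U, by omega, ?_, ?_, ?_⟩
      · refine le_trans (le_of_eq ?_) h1
        rw [e1]
        push_cast
        ring
      · refine le_trans (le_of_eq ?_) h2
        unfold l11_P
        rw [e1, e2]
        push_cast
        ring
      · rw [e2]
        push_cast
        linarith
    · have e3 := l11_up hx100 h5
      have hlp : 0 ≤ Real.log (133 / 100 : ℝ) := Real.log_nonneg (by norm_num)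
      have e4 : Real.log (y (t + 1)) ≤ Real.log (y t) := by linarith
      rw [l11_P_odd h6] at h2
      rw [l11_odd h6] at h1
      by_cases hev : 2 ∣ y (t + 1)
      · -- a switch
        rw [if_pos ⟨hev, h4⟩, Finset.card_insert_of_notMem (by simp)]
        set s := ((range t).filter fun s => 2 ∣ y (s + 1) ∧ ¬ 3 ∣ y (s + 1)).card
        have h7 : l11_P (y (t + 1)) ≤ (485 / 306 : ℝ) ^ (s + 1 + 1) * Real.log m0 := by
          have h8 := l11_PB (x := y (t + 1)) (by omega)
          rw [pow_succ]
          nlinarith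
        refine ⟨D, U + 1, by omega, ?_, h7, ?_⟩
        · have h8 := l11_PA (x := y (t + 1)) (by omega)
          rw [Finset.sum_range_succ, add_mul, add_mul]
          simp only [Nat.cast_zero, add_zero] at h1
          linarith
        · push_cast
          linarith
      · rw [if_neg (fun h => hev h.1)]
        refine ⟨D, U + 1, by omega, ?_, ?_, ?_⟩
        · rw [l11_odd hev]
          exact h1
        · rw [l11_P_odd hev]
          linarith
        · push_cast
          linarith

/-- **LEN.** The length of a cycle with at most eleven local minima. -/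
theorem l11_len (hF : ISFStmt) (k m0 : ℕ) (hk : 1 ≤ k) (hper : F^[k] m0 = m0) (hm : 100 ≤ m0)
    (hmin : ∀ j, m0 ≤ F^[j] m0) (hlm : lm F m0 k ≤ 11) : (k : ℝ) ≤ 972 * Real.log m0 := by
  classical
  have hf : IsF F := hF
  have hrev := l11_rev hf (fun t => F^[k - t] m0) k m0 hm (by simpa using hper)
    (fun t => hmin _) (by
      intro t ht
      have e : k - t = (k - (t + 1)) + 1 := by omega
      show F (F^[k - (t + 1)] m0) = F^[k - t] m0
      rw [e, Function.iterate_succ_apply']) (k - 1) (by omega)
  obtain ⟨D, U, hDU, h1, -, h3⟩ := hrev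
  set T := (range (k - 1)).filter fun s => 2 ∣ (fun t => F^[k - t] m0) (s + 1) ∧
      ¬ 3 ∣ (fun t => F^[k - t] m0) (s + 1) with hT
  have hcard : T.card ≤ 10 := by
    have h4 : (T.image fun s => k - s - 2) ⊆ ((range k).filter fun j => F^[j + 1] m0 < F^[j] m0 ∧
        F^[j + 1] m0 < F^[j + 2] m0).erase (k - 1) := by
      intro j hj
      obtain ⟨s, hs, rfl⟩ := mem_image.1 hj
      obtain ⟨hs1, hs2, hs3⟩ := mem_filter.1 hs
      have hs1 := mem_range.1 hs1
      simp only at hs2 hs3
      have e : k - (s + 1) = (k - s - 2) + 1 := by omega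
      rw [e] at hs2 hs3
      refine mem_erase.2 ⟨by omega, mem_filter.2 ⟨mem_range.2 (by omega), ?_, ?_⟩⟩
      · rw [Function.iterate_succ_apply'] at hs2 ⊢
        exact hf.lt_of_even (by have := hmin (k - s - 2); omega) hs2
      · rw [Function.iterate_succ_apply' F (k - s - 2 + 1)]
        exact hf.lt_of_not (by have := hmin (k - s - 2 + 1); omega) hs3
    have h5 : (T.image fun s => k - s - 2).card = T.card := by
      refine card_image_of_injOn ?_
      intro s hs s' hs' he
      have hs := mem_range.1 (mem_filter.1 (Finset.mem_coe.1 hs)).1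
      have hs' := mem_range.1 (mem_filter.1 (Finset.mem_coe.1 hs')).1
      simp only at he
      omega
    have h6 : k - 1 ∈ (range k).filter fun j => F^[j + 1] m0 < F^[j] m0 ∧
        F^[j + 1] m0 < F^[j + 2] m0 := by
      refine mem_filter.2 ⟨mem_range.2 (by omega), ?_, ?_⟩
      · have e : k - 1 + 1 = k := by omega
        rw [e, hper]
        have h7 := hmin (k - 1)
        have h8 : F (F^[k - 1] m0) = m0 := by
          rw [← Function.iterate_succ_apply' F, Nat.succ_eq_add_one, e, hper]
        rcases Nat.lt_or_eq_of_le h7 with h9 | h9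
        · exact h9
        · exfalso
          rw [← h9] at h8
          by_cases h10 : 3 ∣ m0
          · rcases hf.step (x := m0) (by omega) with ⟨_, h11, _⟩ | ⟨h11, _, _⟩
            · omega
            · exact h11 h10
          · have := hf.lt_of_not (x := m0) (by omega) h10
            omega
      · have e : k - 1 + 1 = k := by omega
        have e' : k - 1 + 2 = k + 1 := by omega
        rw [e, e', Function.iterate_succ_apply', hper]
        refine hf.lt_of_not (by omega) ?_
        intro h10
        have h12 := hmin 1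
        rcases hf.step (x := m0) (by omega) with ⟨_, h11, _⟩ | ⟨h11, _, _⟩
        · have : F^[1] m0 = F m0 := rfl
          omega
        · exact h11 h10
    have h7 := card_le_card h4
    rw [h5, card_erase_of_mem h6] at h7
    have h8 : ((range k).filter fun j => F^[j + 1] m0 < F^[j] m0 ∧
        F^[j + 1] m0 < F^[j + 2] m0).card ≤ 11 := by
      unfold lm at hlm
      convert hlm
    omega
  have hml : (4 : ℝ) ≤ Real.log m0 := by
    have h4 : (4 : ℝ) = Real.log (Real.exp 4) := (Real.log_exp 4).symm
    rw [h4]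
    refine Real.log_le_log (Real.exp_pos _) ?_
    have h5 : Real.exp 4 = Real.exp 1 ^ 4 := by
      rw [← Real.exp_nat_mul]
      norm_num
    have h6 : Real.exp 1 ^ 4 ≤ (2.72 : ℝ) ^ 4 :=
      pow_le_pow_left₀ (Real.exp_pos _).le (by linarith [Real.exp_one_lt_d9]) 4
    have h7 : (100 : ℝ) ≤ m0 := by exact_mod_cast hm
    rw [h5]
    refine h6.trans (le_trans ?_ h7)
    norm_num
  have hS : (∑ j ∈ range (T.card + 1), (485 / 306 : ℝ) ^ (j + 1)) ≤ 427 := by
    refine le_trans (sum_le_sum_of_subset_of_nonneg (range_subset_range.2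
      (show T.card + 1 ≤ 11 by omega)) (fun _ _ _ => by positivity)) ?_
    norm_num [Finset.sum_range_succ]
  have h4 : (D : ℝ) * Real.log 3 ≤ 427 * Real.log m0 := by
    have h5 : (0 : ℝ) ≤ padicValNat 2 (F^[k - (k - 1)] m0) := Nat.cast_nonneg _
    have h6 : (0 : ℝ) ≤ Real.log 3 := Real.log_nonneg (by norm_num)
    have h7 : (∑ j ∈ range (T.card + 1), (485 / 306 : ℝ) ^ (j + 1)) * Real.log m0 ≤
        427 * Real.log m0 := mul_le_mul_of_nonneg_right hS (by linarith)
    have h8 := h1.trans h7
    nlinarith
  have h5 : (1.098 : ℝ) ≤ Real.log 3 := by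
    have := l11_lam'
    have := Real.log_two_gt_d9
    linarith
  have h6 : (D : ℝ) ≤ 389 * Real.log m0 := by
    have hD0 : (0 : ℝ) ≤ D := Nat.cast_nonneg _
    nlinarith
  have h7 : (U : ℝ) ≤ 143 / 100 * D := by
    have h8 : Real.log m0 ≤ Real.log (F^[k - (k - 1)] m0 : ℕ) :=
      Real.log_le_log (by
        have : 0 < m0 := by omega
        exact_mod_cast this) (by exact_mod_cast hmin _)
    have h9 : (U : ℝ) * Real.log (133 / 100) ≤ D * Real.log (3 / 2) := by linarith
    have h10 := l11_rat
    have h11 : (0 : ℝ) < Real.log (133 / 100) := Real.log_pos (by norm_num)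
    have hD0 : (0 : ℝ) ≤ D := Nat.cast_nonneg _
    have h12 : (D : ℝ) * Real.log (3 / 2) ≤ D * (143 / 100 * Real.log (133 / 100)) :=
      mul_le_mul_of_nonneg_left h10 hD0
    by_contra hcon
    rw [not_le] at hcon
    nlinarith
  have h8 : (k : ℝ) = D + U + 1 := by
    have : k = D + U + 1 := by omega
    exact_mod_cast this
  rw [h8]
  nlinarith

end Pool.STN
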